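import Pool.Graph.R_seed8.Helper816.Final999

/-!
MP_5ff942_al, Q1 over every field, with the sharp bound `C(w, 2) + 2` for the number of relations
of semigroups of width `w` that are not generated by an interval.
-/

set_option autoImplicit false

open Finset MvPolynomial

namespace Pool.Agent.Results.MP_5ff942_al.WidthBound

open Pool.Agent.Helper816 Pool.Agent.Helper816.Final999 Pool.Agent.Helper816.Count
  Pool.Agent.Helper816.Toric

/-- the toric ideal over the field `K` of the set `A` of generators: the kernel of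
`K[x_a : a ∈ A] → K[X]`, `x_a ↦ X ^ a` -/
noncomputable def toricIdeal (K : Type) [Field K] (A : Set ℕ) : Ideal (MvPolynomial A K) :=
  RingHom.ker (MvPolynomial.aeval (R := K) (fun i : A => (Polynomial.X : Polynomial K) ^ (i : ℕ)))

/-- the minimal number of generators of the toric ideal -/
noncomputable def rho (K : Type) [Field K] (A : Set ℕ) : Cardinal :=
  Submodule.spanRank (toricIdeal K A)

/-- `A` is a minimal generating set: no element is a sum of other elements of `A` -/
def MinimalGenerators (A : Set ℕ) : Prop :=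
  ∀ a ∈ A, a ∉ AddSubmonoid.closure (A \ {a})

/-- the minimal generating set of the semigroup generated by the interval `[a, b]` -/
def intervalGenerators (a b : ℕ) : Set ℕ :=
  {n | a ≤ n ∧ n ≤ b ∧ n ∉ AddSubmonoid.closure (Set.Icc a b \ {n})}

theorem rho_interval (K : Type) [Field K] (a b : ℕ) :
    rho K (intervalGenerators a b) =
      Submodule.spanRank (toric K (fun i : Interval.MG a b => (i : ℕ))) := by
  have h : ∀ n : ℕ, n ∈ intervalGenerators a b ↔ (a ≤ n ∧ n ≤ b ∧
      n ∉ AddSubmonoid.closure (((Finset.Icc a b : Finset ℕ) : Set ℕ) \ ({n} : Set ℕ))) := by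
    intro n
    simp [intervalGenerators]
  apply le_antisymm
  · exact spanRank_equiv K (Equiv.subtypeEquivRight (fun n => (h n).symm))
      (fun i : intervalGenerators a b => (i : ℕ))
  · exact spanRank_equiv K (Equiv.subtypeEquivRight h) (fun i : Interval.MG a b => (i : ℕ))

theorem rho_finset (K : Type) [Field K] (A : Finset ℕ) :
    rho K (A : Set ℕ) = Submodule.spanRank (toric K (fun i : A => (i : ℕ))) := rfl

theorem min_iff (A : Finset ℕ) (h : MinimalGenerators (A : Set ℕ)) :
    ∀ a ∈ A, a ∉ AddSubmonoid.closure (((A.erase a : Finset ℕ)) : Set ℕ) := by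
  intro a ha
  rw [Finset.coe_erase]
  exact h a ha

/-- the upper bound for sets that are not intervals -/
theorem upper (K : Type) [Field K] (A : Finset ℕ) (hA : A.Nonempty) (h0 : (0 : ℕ) ∉ A)
    (hne : A ≠ Finset.Icc (A.min' hA) (A.max' hA)) :
    rho K (A : Set ℕ) ≤ (((A.max' hA - A.min' hA).choose 2 + 2 : ℕ) : Cardinal) ∧
    (A.max' hA - A.min' hA ∣ A.min' hA →
      rho K (A : Set ℕ) ≤ (((A.max' hA - A.min' hA).choose 2 + 1 : ℕ) : Cardinal)) := by
  classical
  obtain ⟨e, he⟩ : ∃ e, A.card = e + 1 := ⟨A.card - 1, by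
    have := Finset.card_pos.2 hA; omega⟩
  have hm := A.min'_mem hA
  have hmpos : 0 < A.min' hA := Nat.pos_of_ne_zero (fun h => h0 (h ▸ hm))
  set g : Fin (e + 1) → ℕ := fun i => A.orderEmbOfFin he i with hg
  have hgmono : StrictMono g := (A.orderEmbOfFin he).strictMono
  have hg0 : g 0 = A.min' hA := A.orderEmbOfFin_zero he (Nat.succ_pos e)
  have hgl : g (Fin.last e) = A.max' hA := A.orderEmbOfFin_last he (Nat.succ_pos e)
  have hpos : ∀ i, 0 < g i := fun i => lt_of_lt_of_le (hg0 ▸ hmpos)
    (hgmono.monotone (Fin.zero_le i))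
  have hmM : A.min' hA ≤ A.max' hA := A.min'_le _ (A.max'_mem hA)
  have htr : rho K (A : Set ℕ) ≤ Submodule.spanRank (toric K g) :=
    spanRank_equiv K (A.orderIsoOfFin he).toEquiv (fun i : A => (i : ℕ))
  obtain ⟨w, hw⟩ : ∃ w, A.max' hA = A.min' hA + w := ⟨A.max' hA - A.min' hA, by omega⟩
  have hww : A.max' hA - A.min' hA = w := by omega
  have hsub : A ⊆ Finset.Icc (A.min' hA) (A.max' hA) := by
    intro a ha
    rw [Finset.mem_Icc]
    exact ⟨A.min'_le a ha, A.le_max' a ha⟩
  have hcardIcc : (Finset.Icc (A.min' hA) (A.max' hA)).card = w + 1 := by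
    rw [Nat.card_Icc]; omega
  have hlt : A.card < w + 1 := by
    rw [← hcardIcc]
    exact Finset.card_lt_card (hsub.ssubset_of_ne hne)
  have h2 := two_choose w
  rw [hww]
  rcases Nat.lt_or_ge e 2 with he2 | he2
  · have he1 : e = 1 := by
      rcases Nat.eq_zero_or_pos e with he0 | he0
      · exfalso
        have h3 : Fin.last e = 0 := Fin.ext (by simp [he0])
        rw [h3, hg0] at hgl
        omega
      · omega
    obtain ⟨R, hR, hpres⟩ := e_one he1 hpos
    have h4 : rho K (A : Set ℕ) ≤ ((w.choose 2 + 1 : ℕ) : Cardinal) := by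
      refine htr.trans ((spanRank_le K g R hpres).trans ?_)
      have : R.card ≤ w.choose 2 + 1 := by omega
      exact_mod_cast this
    refine ⟨h4.trans ?_, fun _ => h4⟩
    exact_mod_cast Nat.le_succ _
  · have hδ : e + 1 ≤ g (Fin.last e) - g 0 := by omega
    obtain ⟨R, hR1, hR2, hpres⟩ := Upper.ub he2 hgmono (by omega) hδ
    have hww' : g (Fin.last e) - g 0 = w := by omega
    rw [hww', hg0] at hR2
    rw [hww'] at hR1
    refine ⟨?_, fun hd => ?_⟩
    · refine htr.trans ((spanRank_le K g R hpres).trans ?_)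
      have : R.card ≤ w.choose 2 + 2 := by omega
      exact_mod_cast this
    · refine htr.trans ((spanRank_le K g R hpres).trans ?_)
      have h3 := hR2 hd
      have : R.card ≤ w.choose 2 + 1 := by omega
      exact_mod_cast this

/-- **Number of relations, width and interval completion, over every field.** Let `K` be a field,
`A` a nonempty finite set of positive integers, `m = min A`, `M = max A`, `w = M - m`.

1. (Q1) If `A` is a minimal generating set, then `ρ(A) ≤ ρ(Ã)`, where `Ã` is the minimal
generating set of the semigroup generated by `[m, M]`.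
2. If `A` is not the whole interval `[m, M]`, then `ρ(A) ≤ C(w, 2) + 2`, and even
`ρ(A) ≤ C(w, 2) + 1` if `w` divides `m` (minimality of `A` is not needed here).
3. For all `m ≥ w + 2`, `w ≥ 1`, the interval semigroup has `ρ ≥ C(w, 2) + 1`, and
`ρ ≥ C(w, 2) + 2` if `w` does not divide `m`. -/
theorem result (K : Type) [Field K] (A : Finset ℕ) (hA : A.Nonempty) (h0 : (0 : ℕ) ∉ A) :
    (MinimalGenerators (A : Set ℕ) →
      rho K (A : Set ℕ) ≤ rho K (intervalGenerators (A.min' hA) (A.max' hA))) ∧
    (A ≠ Finset.Icc (A.min' hA) (A.max' hA) →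
      rho K (A : Set ℕ) ≤ (((A.max' hA - A.min' hA).choose 2 + 2 : ℕ) : Cardinal) ∧
      (A.max' hA - A.min' hA ∣ A.min' hA →
        rho K (A : Set ℕ) ≤ (((A.max' hA - A.min' hA).choose 2 + 1 : ℕ) : Cardinal))) ∧
    (∀ m w : ℕ, 1 ≤ w → w + 2 ≤ m →
      ((w.choose 2 + 1 : ℕ) : Cardinal) ≤ rho K (intervalGenerators m (m + w)) ∧
      (¬ w ∣ m → ((w.choose 2 + 2 : ℕ) : Cardinal) ≤ rho K (intervalGenerators m (m + w)))) := by
  refine ⟨fun h => ?_, fun h => upper K A hA h0 h, fun m w hw hm => ⟨?_, fun hd => ?_⟩⟩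
  · rw [rho_interval]
    exact main K A hA h0 (min_iff A h)
  · rw [rho_interval]
    exact Interval.interval_ge_one K m w hw hm
  · rw [rho_interval]
    have hw2 : 2 ≤ w := by
      by_contra hc
      have : w = 1 := by omega
      exact hd (this ▸ one_dvd m)
    exact Interval.interval_ge_two K m w hw2 hm hd

end Pool.Agent.Results.MP_5ff942_al.WidthBound
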